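import Mathlib
import Pool.Agent.H321R2.OSI.Lower
import Pool.Agent.H321R2.OSI.LowCoh

/-!
# Q1: with constant failure probability the relative error bound `1 + O(ε)` fails
-/

namespace Pool.Agent.Results.MP_082b65_an.ConstantFailure

open MeasureTheory Matrix Finset Pool.Agent.H321R2.OSI

/-- The statement of Q1 with constant `C` and success probability `p₀`: for every `0 < ε < 1`, every
real `n × d` matrix `A`, every `1 ≤ r ≤ d` and every random `d × k` matrix `S` that is an oblivious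
subspace injection with dimension `r`, injectivity `1 - ε` and failure probability `0.01`, the
randomized SVD satisfies `‖A - Ã‖_F ≤ (1 + C ε) ‖A - A_r‖_F` on some event of probability at
least `p₀`. -/
def ConstBound (C p₀ : ℝ) : Prop :=
  ∀ ε : ℝ, 0 < ε → ε < 1 →
    ∀ (n d k r : ℕ), 1 ≤ r → r ≤ d → ∀ (A : Matrix (Fin n) (Fin d) ℝ)
      (W : Type) (_ : MeasurableSpace W) (P : Measure W) (_ : IsProbabilityMeasure P)
      (S : W → Matrix (Fin d) (Fin k) ℝ), IsOSI P S r (1 - ε) (1 / 100) →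
        ∃ D : Set W, MeasurableSet D ∧ p₀ ≤ P.real D ∧
          ∀ w ∈ D, frob (A - rsvd A (S w)) ≤ (1 + C * ε) * bestErr A r

lemma bestErr_nonneg {n d : ℕ} (A : Matrix (Fin n) (Fin d) ℝ) (r : ℕ) : 0 ≤ bestErr A r := by
  unfold bestErr
  apply Real.sInf_nonneg
  rintro e ⟨B, _, rfl⟩
  exact Real.sqrt_nonneg _

/-- the example -/
theorem example_exists : ∃ (d k : ℕ) (_ : 1 ≤ d) (A : Matrix (Fin d) (Fin d) ℝ)
    (S : Smp 200 d → Matrix (Fin d) (Fin k) ℝ) (c : ℝ), 0 < c ∧
      (∀ ε : ℝ, 0 ≤ ε → IsOSI (unif (Smp 200 d)) S 1 (1 - ε) (1 / 100)) ∧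
      ∀ w, 0 < frob (A - rsvd A (S w)) ∧
        (1 + c) * bestErr A 1 ≤ frob (A - rsvd A (S w)) := by
  obtain ⟨p, hp9, hp⟩ := Nat.exists_infinite_primes (10 ^ 9)
  have : Fact p.Prime := ⟨hp⟩
  obtain ⟨w, hw1, hw2, hw3⟩ := exists_lowcoh p
  have hpr : (10 ^ 9 : ℝ) ≤ p := by exact_mod_cast hp9
  set s : ℝ := 1 / 8000 with hs
  have hN : 0 < p ^ 3 := by positivity
  have hNr : (0 : ℝ) < ((p ^ 3 : ℕ) : ℝ) := by exact_mod_cast hN
  -- the coherence of the rows
  have hww : ∀ j l : Fin (p ^ 3), j ≠ l → |∑ i, w j i * w l i| ≤ 1 / 8000 := by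
    intro j l hjl
    refine (hw2 j l hjl).trans ?_
    apply one_div_le_one_div_of_le (by norm_num)
    linarith
  have hgd : ∀ j, gram (brow s w) j j = 1 := by
    intro j
    refine Fin.cases ?_ (fun j => ?_) j
    · exact gram_brow_zero s w
    · rw [gram_brow_succ s (by rw [hs]; norm_num) w j j, hw1]
      ring
  have hgo : ∀ j l, j ≠ l → |gram (brow s w) j l| ≤ 1 / 4000 := by
    intro j l
    refine Fin.cases ?_ (fun j => ?_) j <;> refine Fin.cases ?_ (fun l => ?_) l
    · intro h; exact absurd rfl h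
    · intro _
      rw [gram_brow_zero_succ, hs, abs_of_pos (by norm_num)]
      norm_num
    · intro _
      rw [gram_symm, gram_brow_zero_succ, hs, abs_of_pos (by norm_num)]
      norm_num
    · intro h
      have hjl : j ≠ l := fun h' => h (by rw [h'])
      rw [gram_brow_succ s (by rw [hs]; norm_num) w j l]
      have h1 := hww j l hjl
      have h2 : |s ^ 2 + (1 - s ^ 2) * ∑ i, w j i * w l i| ≤ s ^ 2 + (1 - s ^ 2) * (1 / 8000) := by
        have h3 : 0 ≤ 1 - s ^ 2 := by rw [hs]; norm_num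
        calc |s ^ 2 + (1 - s ^ 2) * ∑ i, w j i * w l i|
            ≤ |s ^ 2| + |(1 - s ^ 2) * ∑ i, w j i * w l i| := abs_add_le _ _
          _ = s ^ 2 + (1 - s ^ 2) * |∑ i, w j i * w l i| := by
              rw [abs_of_nonneg (sq_nonneg s), abs_mul, abs_of_nonneg h3]
          _ ≤ _ := by
              have := mul_le_mul_of_nonneg_left h1 h3
              linarith
      refine h2.trans ?_
      rw [hs]; norm_num
  have hk : (((p ^ 2 : ℕ) : ℝ) + 1) ≤ ((p ^ 3 : ℕ) : ℝ) * s ^ 2 / 4 := by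
    push_cast
    rw [hs]
    have h1 : (1 : ℝ) ≤ (p : ℝ) ^ 2 := by nlinarith
    have h2 := mul_nonneg (sub_nonneg.2 hpr) (sq_nonneg (p : ℝ))
    have h3 : (p : ℝ) ^ 3 = p * p ^ 2 := by ring
    rw [h3]
    nlinarith
  have herr := fun ω => err_lower (K := 200) (by norm_num) s (by rw [hs]; norm_num)
    (by rw [hs]; norm_num) w hw3 hN hk ω
  refine ⟨p ^ 3 + 1, p ^ 2 + 1, by omega, diagonal (avec (p ^ 3)), Smat 200 (brow s w),
    s ^ 2 / 16, by rw [hs]; norm_num, ?_, ?_⟩
  · intro ε hε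
    exact isOSI_Smat (by norm_num) (brow s w) hgd (1 / 4000) hgo (by norm_num) (1 / 100)
      (by norm_num) ε hε
  · intro ω
    have h1 := herr ω
    have h2 : 0 ≤ frob (diagonal (avec (p ^ 3)) - rsvd (diagonal (avec (p ^ 3)))
      (Smat 200 (brow s w) ω)) := Real.sqrt_nonneg _
    have h3 := bestErr_le (p ^ 3)
    have h4 := bestErr_nonneg (diagonal (avec (p ^ 3))) 1
    have h5 : (bestErr (diagonal (avec (p ^ 3))) 1) ^ 2 ≤ ((p ^ 3 : ℕ) : ℝ) := by
      calc (bestErr (diagonal (avec (p ^ 3))) 1) ^ 2 ≤ (Real.sqrt ((p ^ 3 : ℕ) : ℝ)) ^ 2 :=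
            pow_le_pow_left₀ h4 h3 2
        _ = _ := Real.sq_sqrt hNr.le
    constructor
    · rcases h2.lt_or_eq with h | h
      · exact h
      · exfalso
        rw [← h] at h1
        have : 0 < ((p ^ 3 : ℕ) : ℝ) * (1 + s ^ 2 / 4) := by positivity
        nlinarith
    · apply le_of_sq_le_sq _ h2
      refine le_trans ?_ h1
      rw [mul_pow]
      have h6 : (1 + s ^ 2 / 16) ^ 2 ≤ 1 + s ^ 2 / 4 := by rw [hs]; norm_num
      calc (1 + s ^ 2 / 16) ^ 2 * bestErr (diagonal (avec (p ^ 3))) 1 ^ 2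
          ≤ (1 + s ^ 2 / 4) * ((p ^ 3 : ℕ) : ℝ) := by
            apply mul_le_mul h6 h5 (sq_nonneg _) (by positivity)
        _ = _ := by ring

/-- **Negative answer to Q1.** There are no constants `C` and `p₀ > 0` for which the relative error
bound holds for all oblivious subspace injections with failure probability `0.01`; moreover there
are one matrix `A`, one random test matrix `S` and one `c > 0` such that `S` is an oblivious
subspace injection with dimension `1`, failure probability `0.01` and every injectivity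
`1 - ε ≤ 1`, while for every outcome the error is at least `(1 + c)` times the optimal rank-one
error (and positive). -/
theorem result : (¬ ∃ C p₀ : ℝ, 0 < p₀ ∧ ConstBound C p₀) ∧
    ∃ (d k : ℕ) (A : Matrix (Fin d) (Fin d) ℝ) (W : Type) (_ : MeasurableSpace W)
      (P : Measure W) (_ : IsProbabilityMeasure P) (S : W → Matrix (Fin d) (Fin k) ℝ) (c : ℝ),
      1 ≤ d ∧ 0 < c ∧ (∀ ε : ℝ, 0 ≤ ε → IsOSI P S 1 (1 - ε) (1 / 100)) ∧
      ∀ w, 0 < frob (A - rsvd A (S w)) ∧
        (1 + c) * bestErr A 1 ≤ frob (A - rsvd A (S w)) := by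
  obtain ⟨d, k, hd, A, S, c, hc, hS, hw⟩ := example_exists
  refine ⟨?_, d, k, A, Smp 200 d, inferInstance, unif (Smp 200 d), inferInstance, S, c, hd, hc,
    hS, hw⟩
  rintro ⟨C, p₀, hp₀, H⟩
  set ε : ℝ := min (1 / 2) (c / (2 * (|C| + 1))) with hε
  have hC1 : (0 : ℝ) < |C| + 1 := by positivity
  have hε0 : 0 < ε := lt_min (by norm_num) (by positivity)
  have hε1 : ε < 1 := lt_of_le_of_lt (min_le_left _ _) (by norm_num)
  have hCε : C * ε ≤ c / 2 := by
    have h1 : ε ≤ c / (2 * (|C| + 1)) := min_le_right _ _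
    calc C * ε ≤ |C| * ε := mul_le_mul_of_nonneg_right (le_abs_self C) hε0.le
      _ ≤ (|C| + 1) * ε := by nlinarith
      _ ≤ (|C| + 1) * (c / (2 * (|C| + 1))) := mul_le_mul_of_nonneg_left h1 hC1.le
      _ = c / 2 := by field_simp
  obtain ⟨D, -, hD1, hD2⟩ := H ε hε0 hε1 d d k 1 le_rfl hd A (Smp 200 d) inferInstance
    (unif (Smp 200 d)) inferInstance S (hS ε hε0.le)
  have hne : D.Nonempty := by
    by_contra h
    rw [Set.not_nonempty_iff_eq_empty] at h
    rw [h] at hD1
    simp at hD1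
    linarith
  obtain ⟨w, hwD⟩ := hne
  have h1 := hD2 w hwD
  obtain ⟨h2, h3⟩ := hw w
  have hb := bestErr_nonneg A 1
  rcases hb.lt_or_eq with h | h
  · nlinarith
  · rw [← h, mul_zero] at h1
    linarith

end Pool.Agent.Results.MP_082b65_an.ConstantFailure
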